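import Mathlib

namespace Pool.Agent.Results.MP_3923f3_nt.LowerBound

/-- The quadruple `(a, b, c, d)` is admissible. -/
def Admissible (a b c d : ℤ) : Prop :=
  a ≠ 0 ∧ b ≠ 0 ∧ c ≠ 0 ∧ ¬ (0 < a ∧ 0 < b ∧ 0 < c) ∧ ¬ (a < 0 ∧ b < 0 ∧ c < 0) ∧
    Even (a + b + c - d) ∧
    Int.gcd (Int.gcd a b) c = 1 ∧ Int.gcd (Int.gcd d a) b = 1 ∧
    Int.gcd (Int.gcd d a) c = 1 ∧ Int.gcd (Int.gcd d b) c = 1

/-- `m(a,b,c) = max(3,|a|,|b|,|c|)`. -/
def mm (a b c : ℤ) : ℤ := max 3 (max |a| (max |b| |c|))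

/-- The real number `μ` is good. -/
def Good (μ : ℝ) : Prop :=
  ∀ a b c d : ℤ, Admissible a b c d →
    ∃ p q r : ℕ, p.Prime ∧ q.Prime ∧ r.Prime ∧ a * p + b * q + c * r = d ∧
      ((max p (max q r) : ℕ) : ℝ) ≤ 3 * |(d : ℝ)| + ((mm a b c : ℤ) : ℝ) ^ μ

lemma adm : Admissible (-1) 2 3 0 := by
  unfold Admissible
  refine ⟨by norm_num, by norm_num, by norm_num, by norm_num, by norm_num, ⟨2, by norm_num⟩,
    by decide, by decide, by decide, by decide⟩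

lemma big (p q r : ℕ) (hp : p.Prime) (hq : q.Prime) (hr : r.Prime) (h : p = 2 * q + 3 * r) :
    13 ≤ p := by
  by_contra hlt
  have h2 := hq.two_le
  have h3 := hr.two_le
  have hq4 : q < 4 := by omega
  have hr3 : r < 3 := by omega
  interval_cases q <;> interval_cases r <;> subst h <;> revert hp <;> decide

theorem lower (μ : ℝ) (h : Good μ) : Real.logb 3 13 ≤ μ := by
  obtain ⟨p, q, r, hp, hq, hr, he, hle⟩ := h (-1) 2 3 0 adm
  have hp13 : 13 ≤ p := big p q r hp hq hr (by omega)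
  have hm : mm (-1) 2 3 = 3 := by decide
  rw [hm] at hle
  have h1 : (13 : ℝ) ≤ ((max p (max q r) : ℕ) : ℝ) := by
    exact_mod_cast le_trans hp13 (le_max_left _ _)
  have h2 : (13 : ℝ) ≤ (3 : ℝ) ^ μ := by
    have := le_trans h1 hle
    simpa using this
  rw [Real.logb_le_iff_le_rpow (by norm_num) (by norm_num)]
  exact h2

theorem result : ∀ μ : ℝ, Good μ → Real.logb 3 13 ≤ μ := lower

end Pool.Agent.Results.MP_3923f3_nt.LowerBound
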